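import Mathlib
import Pool.Agent.Run7.h911.FD4

set_option autoImplicit false

/-!
# Elements of the cycles of the 3x+1 map with few digits

Let `q` be `2` or `3`. Among `N` consecutive terms of a trajectory of the 3x+1 map on the integers which are
different from each other at most `C N ^ (1 - 1 / h)` are prime to `q` and have few digits in base `q`:
at most `h` nonzero signed digits or, more generally, are `1 / D` times a sum of `h` terms `m q ^ e` with
`|m| ≤ H` (if `D = q ^ π - 1` this covers the expansions which consist of boundedly many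
blocks, each of them periodic with a period dividing `π`). So all but `C p ^ (1 - 1 / h)` of the odd elements of
a cycle with `p` elements have more than `h` nonzero binary digits, and all but `C p ^ (1 - 1 / h)` of its
elements prime to three have more than `h` nonzero ternary digits. At most `C (N / K + 1)` of the terms with
these properties are at least `q ^ K` in absolute value, for every trajectory.

Method. If `u + 2 ^ a w` with a small `u` is a sparse odd term then the first `s ≤ a` iterates are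
`T ^ s u + 3 ^ o 2 ^ (a - s) w`. If the last one of them is sparse as well then `2 ^ s 3 ^ (-o)` times a
part of its expansion is the high part of the given one; by the theorem on S-unit equations (starting file
`Pool/Agent/N709/Sun.lean`) the exponent `o`, that is the number of the odd terms between the two, is bounded.
In base three the predecessors of a term are treated in the same way. So the sparse terms with a long gap
in their expansion are rare in each window as long as the gap, and those without a long gap are small.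
-/

namespace Pool.Agent.Results.MP_edb5be_nt.FewDigits

open Finset Classical

/-- The 3x+1 map on the integers. -/
def T (x : ℤ) : ℤ := if x % 2 = 0 then x / 2 else (3 * x + 1) / 2

/-- `Z` is a cycle of `T`. -/
def IsCycle (Z : Finset ℤ) : Prop :=
  ∃ (x : ℤ) (p : ℕ), 1 ≤ p ∧ T^[p] x = x ∧ Z = (Finset.range p).image fun i => T^[i] x

/-- `x` is prime to the prime `q`, and `D x` is a sum of `h` terms `m q ^ e` with integers
`|m| ≤ H` (zero is allowed) and `e ≥ 0`. -/
def Sparse (q D h H : ℕ) (x : ℤ) : Prop :=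
  ¬ (q : ℤ) ∣ x ∧ ∃ (m : Fin h → ℤ) (e : Fin h → ℕ), (∀ i, |m i| ≤ H) ∧
    (D : ℤ) * x = ∑ i, m i * (q : ℤ) ^ e i

/-- the `i`-th digit of `|x|` in base `q` -/
def digit (q : ℕ) (x : ℤ) (i : ℕ) : ℕ := x.natAbs / q ^ i % q

/-- the places `i` at which the digit differs from the one at `i - π` (which is zero for `i < π`) -/
def breaks (q π : ℕ) (x : ℤ) : Set ℕ :=
  {i | digit q x i ≠ if π ≤ i then digit q x (i - π) else 0}

theorem sum_fin (q H : ℕ) (f : ℕ → ℤ) (hf : ∀ i, |f i| ≤ H) : ∀ (h : ℕ) (S : Finset ℕ), S.card ≤ h →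
    ∃ (m : Fin h → ℤ) (e : Fin h → ℕ), (∀ i, |m i| ≤ H) ∧
      ∑ i ∈ S, f i * (q : ℤ) ^ i = ∑ j, m j * (q : ℤ) ^ e j := by
  intro h
  induction h with
  | zero =>
    intro S hS
    have : S = ∅ := Finset.card_eq_zero.1 (by omega)
    subst this
    exact ⟨fun _ => 0, fun _ => 0, fun i => i.elim0, by simp⟩
  | succ h ih =>
    intro S hS
    rcases S.eq_empty_or_nonempty with rfl | ⟨a, ha⟩
    · exact ⟨fun _ => 0, fun _ => 0, fun i => by simp, by simp⟩
    · obtain ⟨m, e, h1, h2⟩ := ih (S.erase a) (by rw [Finset.card_erase_of_mem ha]; omega)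
      refine ⟨Fin.cons (f a) m, Fin.cons a e, fun i => ?_, ?_⟩
      · refine Fin.cases ?_ (fun j => ?_) i
        · exact hf a
        · exact h1 j
      · rw [Fin.sum_univ_succ, ← Finset.add_sum_erase _ _ ha, h2]
        rfl

theorem digits_sum (q n : ℕ) : ∀ M : ℕ,
    ∑ i ∈ range M, (n / q ^ i % q) * q ^ i + q ^ M * (n / q ^ M) = n := by
  intro M
  induction M with
  | zero => simp
  | succ M ih =>
    rw [Finset.sum_range_succ]
    have h1 : n / q ^ (M + 1) = n / q ^ M / q := by rw [pow_succ, Nat.div_div_eq_div_mul]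
    have h2 := Nat.mod_add_div (n / q ^ M) q
    rw [h1]
    calc _ = ∑ i ∈ range M, (n / q ^ i % q) * q ^ i +
          q ^ M * (n / q ^ M % q + q * (n / q ^ M / q)) := by ring
      _ = n := by rw [h2, ih]

theorem sparse_of_breaks {q π h H : ℕ} (hq : 2 ≤ q) (hH : q - 1 ≤ H) {y : ℤ}
    (hy : ¬ (q : ℤ) ∣ y) (hb : (breaks q π y).ncard ≤ h) : Sparse q (q ^ π - 1) h H y := by
  refine ⟨hy, ?_⟩
  set n := y.natAbs with hn
  have hzero : ∀ i, n ≤ i → n / q ^ i = 0 := fun i hi =>
    Nat.div_eq_of_lt ((Nat.lt_pow_self (by omega)).trans_le (Nat.pow_le_pow_right (by omega) hi))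
  set g : ℕ → ℤ := fun i => ((if π ≤ i then digit q y (i - π) else 0 : ℕ) : ℤ) - digit q y i with hg
  have hdig : ∀ i, (digit q y i : ℤ) ≤ H := fun i => by
    have : digit q y i < q := Nat.mod_lt _ (by omega)
    have : digit q y i ≤ H := by omega
    exact_mod_cast this
  have hgb : ∀ i, |g i| ≤ H := fun i => by
    have h1 := hdig i
    have h2 := hdig (i - π)
    rw [hg, abs_le]
    dsimp only
    split_ifs
    · constructor <;> omega
    · constructor <;> push_cast <;> omega
  have hsub : breaks q π y ⊆ (range (n + π) : Finset ℕ) := by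
    intro i hi
    by_contra hcon
    rw [Finset.coe_range, Set.mem_Iio, not_lt] at hcon
    apply hi
    rw [if_pos (by omega)]
    unfold digit
    rw [hzero i (by omega), hzero (i - π) (by omega)]
  have hfin : (breaks q π y).Finite := (Finset.finite_toSet _).subset hsub
  have hsum : ((q ^ π - 1 : ℕ) : ℤ) * n = ∑ i ∈ range (n + π), g i * (q : ℤ) ^ i := by
    have h1 : (∑ i ∈ range (n + π), ((digit q y i : ℕ) : ℤ) * (q : ℤ) ^ i) = n := by
      have := digits_sum q n (n + π)
      rw [hzero (n + π) (by omega), mul_zero, add_zero] at this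
      exact_mod_cast this
    have h2 : (∑ i ∈ range (n + π), ((if π ≤ i then digit q y (i - π) else 0 : ℕ) : ℤ) *
        (q : ℤ) ^ i) = q ^ π * n := by
      rw [add_comm n π, Finset.sum_range_add]
      have h3 : (∑ i ∈ range π, ((if π ≤ i then digit q y (i - π) else 0 : ℕ) : ℤ) *
        (q : ℤ) ^ i) = 0 := by
        apply Finset.sum_eq_zero
        intro i hi
        rw [if_neg (by rw [Finset.mem_range] at hi; omega)]
        simp
      rw [h3, zero_add]
      have h4 : (∑ i ∈ range n, ((digit q y i : ℕ) : ℤ) * (q : ℤ) ^ i) = n := by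
        have := digits_sum q n n
        rw [hzero n le_rfl, mul_zero, add_zero] at this
        exact_mod_cast this
      rw [← h4, Finset.mul_sum]
      apply Finset.sum_congr rfl
      intro i _
      rw [if_pos (by omega), show π + i - π = i by omega, pow_add]
      ring
    have h5 : 1 ≤ q ^ π := Nat.one_le_pow _ _ (by omega)
    rw [Nat.cast_sub h5]
    push_cast
    simp only [hg, sub_mul, Finset.sum_sub_distrib]
    rw [h1, h2]
    ring
  have hsum2 : ∑ i ∈ range (n + π), g i * (q : ℤ) ^ i = ∑ i ∈ hfin.toFinset, g i * (q : ℤ) ^ i := by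
    symm
    apply Finset.sum_subset
    · intro i hi
      exact_mod_cast hsub (hfin.mem_toFinset.1 hi)
    · intro i _ hi
      have : ¬ i ∈ breaks q π y := fun h => hi (hfin.mem_toFinset.2 h)
      simp only [breaks, Set.mem_ofPred_eq, not_not] at this
      rw [hg]
      dsimp only
      rw [← this, sub_self, zero_mul]
  have hcard : hfin.toFinset.card ≤ h := by
    rwa [← Set.ncard_eq_toFinset_card _ hfin]
  obtain ⟨m, e, h1, h2⟩ := sum_fin q H (fun i => y.sign * g i) (fun i => by
    rw [abs_mul]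
    have h3 : |y.sign| ≤ 1 := by
      rcases lt_trichotomy y 0 with h | h | h
      · rw [Int.sign_eq_neg_one_of_neg h]; norm_num
      · rw [h]; norm_num
      · rw [Int.sign_eq_one_of_pos h]; norm_num
    have h4 := hgb i
    have h5 := abs_nonneg (g i)
    nlinarith) h hfin.toFinset hcard
  refine ⟨m, e, h1, ?_⟩
  rw [← h2]
  have h6 : y = y.sign * n := by
    rw [hn]
    exact (Int.sign_mul_natAbs y).symm
  conv_lhs => rw [h6]
  rw [show ((q ^ π - 1 : ℕ) : ℤ) * (y.sign * n) = y.sign * (((q ^ π - 1 : ℕ) : ℤ) * n) by ring,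
    hsum, hsum2, Finset.mul_sum]
  apply Finset.sum_congr rfl
  intro i _
  ring

theorem T_eq : T = Run7.h911.FD.TD 1 := by
  funext x
  unfold T Run7.h911.FD.TD
  push_cast
  rfl

/-- a cycle is parametrized by its minimal period -/
theorem minimal {Z : Finset ℤ} (hZ : IsCycle Z) : ∃ (x : ℤ) (r : ℕ), 0 < r ∧
    Set.InjOn (fun i => T^[i] x) (Set.Iio r) ∧ Z.card = r ∧
    Z = (Finset.range r).image fun i => T^[i] x := by
  obtain ⟨x, p, hp, hper, rfl⟩ := hZ
  set r := Function.minimalPeriod T x with hr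
  have hxp : Function.IsPeriodicPt T p x := hper
  have hr0 : 0 < r := hxp.minimalPeriod_pos hp
  have hinj : Set.InjOn (fun i => T^[i] x) (Set.Iio r) := Function.iterate_injOn_Iio_minimalPeriod
  have hrp : r ≤ p := hxp.minimalPeriod_le hp
  have hZ : ((Finset.range p).image fun i => T^[i] x) = (Finset.range r).image fun i => T^[i] x := by
    ext y
    simp only [Finset.mem_image, Finset.mem_range]
    constructor
    · rintro ⟨i, _, rfl⟩
      exact ⟨i % r, Nat.mod_lt _ hr0, Function.iterate_mod_minimalPeriod_eq⟩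
    · rintro ⟨i, hi, rfl⟩
      exact ⟨i, by omega, rfl⟩
  refine ⟨x, r, hr0, hinj, ?_, hZ⟩
  rw [hZ, Finset.card_image_of_injOn (by rw [Finset.coe_range]; exact hinj), Finset.card_range]

/-- the elements of a cycle and the indices -/
theorem card_image_filter (x : ℤ) (r : ℕ) (P : ℤ → Prop) :
    (((Finset.range r).image fun i => T^[i] x).filter P).card ≤
      ((range r).filter fun i => P (T^[i] x)).card := by
  refine (Finset.card_le_card ?_).trans
    (Finset.card_image_le (s := (range r).filter fun i => P (T^[i] x)) (f := fun i => T^[i] x))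
  intro y hy
  obtain ⟨h1, h2⟩ := Finset.mem_filter.1 hy
  obtain ⟨i, hi, rfl⟩ := Finset.mem_image.1 h1
  exact Finset.mem_image.2 ⟨i, Finset.mem_filter.2 ⟨hi, h2⟩, rfl⟩

/-- the statement for all `D`, `H` -/
theorem main (q D h H : ℕ) (hq : q = 2 ∨ q = 3) (hD : Nat.Coprime D q) :
    ∃ C : ℝ, 0 < C ∧
      (∀ (x : ℤ) (N K : ℕ), 1 ≤ K →
        (((range N).filter fun i => Sparse q D h H (T^[i] x) ∧ (q : ℤ) ^ K ≤ |T^[i] x|).card : ℝ) ≤
          C * ((N : ℝ) / K + 1)) ∧
      (∀ (x : ℤ) (N : ℕ), 1 ≤ N → Set.InjOn (fun i => T^[i] x) (Set.Iio N) →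
        (((range N).filter fun i => Sparse q D h H (T^[i] x)).card : ℝ) ≤
          C * (N : ℝ) ^ (1 - 1 / (h : ℝ))) ∧
      (∀ Z : Finset ℤ, IsCycle Z →
        ((Z.filter fun y => Sparse q D h H y).card : ℝ) ≤ C * (Z.card : ℝ) ^ (1 - 1 / (h : ℝ))) ∧
      (∀ (Z : Finset ℤ) (K : ℕ), IsCycle Z → 1 ≤ K →
        ((Z.filter fun y => Sparse q D h H y ∧ (q : ℤ) ^ K ≤ |y|).card : ℝ) ≤
          C * ((Z.card : ℝ) / K + 1)) := by
  obtain ⟨C₁, hC₁, h1⟩ := Run7.h911.FD.large_bound hq hD h H
  obtain ⟨C₂, hC₂, h2⟩ := Run7.h911.FD.total_bound hq hD h H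
  simp only [← T_eq] at h1 h2
  have g1 : ∀ (x : ℤ) (N K : ℕ), 1 ≤ K →
      (((range N).filter fun i => Sparse q D h H (T^[i] x) ∧ (q : ℤ) ^ K ≤ |T^[i] x|).card : ℝ) ≤
        (C₁ + C₂) * ((N : ℝ) / K + 1) := by
    intro x N K hK
    refine (h1 x N K hK _ (Finset.filter_subset _ _) fun i hi => ?_).trans ?_
    · obtain ⟨-, ⟨h3, h4⟩, h5⟩ := Finset.mem_filter.1 hi
      exact ⟨h3, h4, h5⟩
    · have : (0 : ℝ) ≤ (N : ℝ) / K + 1 := by positivity
      nlinarith
  have g2 : ∀ (x : ℤ) (N : ℕ), 1 ≤ N → Set.InjOn (fun i => T^[i] x) (Set.Iio N) →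
      (((range N).filter fun i => Sparse q D h H (T^[i] x)).card : ℝ) ≤
        (C₁ + C₂) * (N : ℝ) ^ (1 - 1 / (h : ℝ)) := by
    intro x N hN hinj
    refine (h2 x N hN hinj _ (Finset.filter_subset _ _) fun i hi => ?_).trans ?_
    · obtain ⟨-, h3, h4⟩ := Finset.mem_filter.1 hi
      exact ⟨h3, h4⟩
    · have : (0 : ℝ) ≤ (N : ℝ) ^ (1 - 1 / (h : ℝ)) := by positivity
      nlinarith
  refine ⟨C₁ + C₂, by positivity, g1, g2, ?_, ?_⟩
  · intro Z hZ
    obtain ⟨x, r, hr0, hinj, hcard, hZ'⟩ := minimal hZ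
    rw [hcard, hZ']
    refine le_trans ?_ (g2 x r hr0 hinj)
    exact_mod_cast card_image_filter x r (fun y => Sparse q D h H y)
  · intro Z K hZ hK
    obtain ⟨x, r, hr0, hinj, hcard, hZ'⟩ := minimal hZ
    rw [hcard, hZ']
    refine le_trans ?_ (g1 x r K hK)
    exact_mod_cast card_image_filter x r (fun y => Sparse q D h H y ∧ (q : ℤ) ^ K ≤ |y|)

/-- **The terms with few digits are rare.** Let `q = 2` or `q = 3`.

(1) For all `h`, `H` and all `D` prime to `q` there is `C` such that: in every trajectory of the 3x+1 map on the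
integers at most `C (N / K + 1)` of the first `N` terms are sparse and at least `q ^ K` in absolute value; if
the first `N` terms are different at most `C N ^ (1 - 1 / h)` of them are sparse; hence at most
`C p ^ (1 - 1 / h)` elements of a cycle with `p` elements are sparse, and at most `C (p / K + 1)` are
sparse and at least `q ^ K` in absolute value.

(2) For all `h` and all periods `π ≥ 1` there is `C` such that among `N` consecutive terms which are different
(for example among the `N` elements of a cycle) at most `C N ^ (1 - 1 / h)` are prime to `q`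
and have at most `h` digits in base `q` which differ from the digit `π` places before. -/
theorem result (q h : ℕ) (hq : q = 2 ∨ q = 3) :
    (∀ D H : ℕ, Nat.Coprime D q → ∃ C : ℝ, 0 < C ∧
      (∀ (x : ℤ) (N K : ℕ), 1 ≤ K →
        (((range N).filter fun i => Sparse q D h H (T^[i] x) ∧ (q : ℤ) ^ K ≤ |T^[i] x|).card : ℝ) ≤
          C * ((N : ℝ) / K + 1)) ∧
      (∀ (x : ℤ) (N : ℕ), 1 ≤ N → Set.InjOn (fun i => T^[i] x) (Set.Iio N) →
        (((range N).filter fun i => Sparse q D h H (T^[i] x)).card : ℝ) ≤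
          C * (N : ℝ) ^ (1 - 1 / (h : ℝ))) ∧
      (∀ Z : Finset ℤ, IsCycle Z →
        ((Z.filter fun y => Sparse q D h H y).card : ℝ) ≤ C * (Z.card : ℝ) ^ (1 - 1 / (h : ℝ))) ∧
      (∀ (Z : Finset ℤ) (K : ℕ), IsCycle Z → 1 ≤ K →
        ((Z.filter fun y => Sparse q D h H y ∧ (q : ℤ) ^ K ≤ |y|).card : ℝ) ≤
          C * ((Z.card : ℝ) / K + 1))) ∧
    (∀ π : ℕ, 1 ≤ π → ∃ C : ℝ, 0 < C ∧
      (∀ (x : ℤ) (N : ℕ), 1 ≤ N → Set.InjOn (fun i => T^[i] x) (Set.Iio N) →
        (((range N).filter fun i => ¬ (q : ℤ) ∣ T^[i] x ∧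
          (breaks q π (T^[i] x)).ncard ≤ h).card : ℝ) ≤ C * (N : ℝ) ^ (1 - 1 / (h : ℝ))) ∧
      (∀ Z : Finset ℤ, IsCycle Z →
        ((Z.filter fun y => ¬ (q : ℤ) ∣ y ∧ (breaks q π y).ncard ≤ h).card : ℝ) ≤
          C * (Z.card : ℝ) ^ (1 - 1 / (h : ℝ)))) := by
  have hq2 : 2 ≤ q := by rcases hq with rfl | rfl <;> norm_num
  refine ⟨fun D H hD => main q D h H hq hD, fun π hπ => ?_⟩
  have hcop : Nat.Coprime (q ^ π - 1) q := by
    have h1 : 1 ≤ q ^ π := Nat.one_le_pow _ _ (by omega)
    have h2 : Nat.Coprime (q ^ π - 1) (q ^ π) := by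
      have h3 : Nat.Coprime (q ^ π - 1) (q ^ π - 1 + 1) :=
        Nat.coprime_self_add_right.2 (Nat.coprime_one_right _)
      rwa [Nat.sub_add_cancel h1] at h3
    exact Nat.Coprime.coprime_dvd_right (dvd_pow_self q (by omega)) h2
  obtain ⟨C, hC, -, h2, h3, -⟩ := main q (q ^ π - 1) h (q - 1) hq hcop
  refine ⟨C, hC, fun x N hN hinj => le_trans ?_ (h2 x N hN hinj), fun Z hZ => le_trans ?_ (h3 Z hZ)⟩
  · have : ((range N).filter fun i => ¬ (q : ℤ) ∣ T^[i] x ∧ (breaks q π (T^[i] x)).ncard ≤ h).card ≤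
        ((range N).filter fun i => Sparse q (q ^ π - 1) h (q - 1) (T^[i] x)).card := by
      apply Finset.card_le_card
      intro i hi
      obtain ⟨h4, h5, h6⟩ := Finset.mem_filter.1 hi
      exact Finset.mem_filter.2 ⟨h4, sparse_of_breaks hq2 le_rfl h5 h6⟩
    exact_mod_cast this
  · have : (Z.filter fun y => ¬ (q : ℤ) ∣ y ∧ (breaks q π y).ncard ≤ h).card ≤
        (Z.filter fun y => Sparse q (q ^ π - 1) h (q - 1) y).card := by
      apply Finset.card_le_card
      intro y hy
      obtain ⟨h4, h5, h6⟩ := Finset.mem_filter.1 hy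
      exact Finset.mem_filter.2 ⟨h4, sparse_of_breaks hq2 le_rfl h5 h6⟩
    exact_mod_cast this

end Pool.Agent.Results.MP_edb5be_nt.FewDigits
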