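import Mathlib
import Pool.Agent.Run7.h823.PV9

set_option autoImplicit false

/-!
# Values of polynomials in the trajectories and cycles of the 3x+1 map

Let `f` be a polynomial of degree `d ≥ 2` with rational coefficients. In the trajectories of the
3x+1 map on the integers, hence in its cycles, the values of `f` at integers are rare: unless `f` is
of the form `c (X - h) ^ d + g` with a number `g` which is itself cyclic, there is `k` such that
three values of `f` with gaps of total length `n` force the first one to be at most `k ^ n` in absolute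
value. So of the `L` terms after `x` at most two are values of `f` when `L < log |x| / log k`, and
of `N` different consecutive terms, for example of the elements of a cycle of `N`
elements, at most `C N / log N` are values of `f`. For the pure powers of degree `d ≥ 3` two values are enough.

The exceptions are real ones: an integer `g` is in a cycle if and only if the values of
`X ^ d + g` are not sparse in this sense, and a rational number `g ≠ 0` is cyclic if and only if the
values of `g - g X ^ d` are not. For the exceptional polynomials the theorem holds for the values which are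
not too near to `g` in the sense of the prime two, for instance for the odd numbers `c u ^ d`, `|c| ≤ M`.

Method. If `y` and `T ^ n y` are values of `f` at `u` and `u'`, then
`u' - h` is near `β (u - h)`, where `β` is the `d`-th root of `3 ^ o / 2 ^ n`; there are finitely
many `β` modulo the rational numbers. Schmidt's theorem on the simultaneous approximation of two irrational
algebraic numbers (starting files `Pool/Agent/N965/LN`, from the subspace theorem) is applied to three values, Roth's
theorem to two values of a pure power of degree at least three. The rational `β` are treated by hand.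
-/

namespace Pool.Agent.Results.MP_edb5be_nt.PolynomialValues

open Finset Polynomial Classical

/-- The 3x+1 map on the integers. -/
def T (x : ℤ) : ℤ := if x % 2 = 0 then x / 2 else (3 * x + 1) / 2

/-- `Z` is a cycle of `T`. -/
def IsCycle (Z : Finset ℤ) : Prop :=
  ∃ (x : ℤ) (p : ℕ), 1 ≤ p ∧ T^[p] x = x ∧ Z = (Finset.range p).image fun i => T^[i] x

/-- The `3x+D` map on the integers. For odd `D` it is the map `T` on the fractions with
denominator `D`: the fraction `a / D` is sent to `TD D a / D`. -/
def TD (D a : ℤ) : ℤ := if a % 2 = 0 then a / 2 else (3 * a + D) / 2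

/-- The rational number `g` is cyclic: it has an odd denominator and is a periodic point of `T` on
the rational numbers with odd denominators. -/
def Cyclic (g : ℚ) : Prop := g.den % 2 = 1 ∧ ∃ n : ℕ, 0 < n ∧ (TD g.den)^[n] g.num = g.num

/-- Two terms with the property `P` are far apart: if `y` and `T ^ n y` have it, then `|y| ≤ k ^ n`. -/
def Sparse1 (P : ℤ → Prop) : Prop :=
  ∃ k : ℕ, ∀ (y : ℤ) (n : ℕ), 0 < n → P y → P (T^[n] y) → |y| ≤ (k : ℤ) ^ n

/-- Three terms with the property `P` are far apart: if `y`, `T ^ m y` and `T ^ n y`, `0 < m < n`,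
have it, then `|y| ≤ k ^ n`. -/
def Sparse2 (P : ℤ → Prop) : Prop :=
  ∃ k : ℕ, ∀ (y : ℤ) (m n : ℕ), 0 < m → m < n → P y → P (T^[m] y) → P (T^[n] y) →
    |y| ≤ (k : ℤ) ^ n

/-- `y` is a value of the polynomial `f` at an integer. -/
def Value (f : ℚ[X]) (y : ℤ) : Prop := ∃ u : ℤ, f.eval (u : ℚ) = y

/-- `y` is odd and `y = c u ^ d` with `|c| ≤ M`. -/
def NearPower (d M : ℕ) (y : ℤ) : Prop := y % 2 = 1 ∧ ∃ c u : ℤ, |c| ≤ M ∧ y = c * u ^ d

theorem value_pure (d : ℕ) (c h g : ℚ) (y : ℤ) :
    Value (C c * (X - C h) ^ d + C g) y ↔ ∃ u : ℤ, (y : ℚ) = c * (u - h) ^ d + g := by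
  unfold Value
  simp only [eval_add, eval_mul, eval_C, eval_pow, eval_sub, eval_X]
  exact ⟨fun ⟨u, hu⟩ => ⟨u, hu.symm⟩, fun ⟨u, hu⟩ => ⟨u, hu.symm⟩⟩

/-- **Values of polynomials in the trajectories and cycles of the 3x+1 map.** -/
theorem result :
    -- polynomials which are not pure with a cyclic centre
    (∀ f : ℚ[X], 2 ≤ f.natDegree →
      (∀ c h g : ℚ, Cyclic g → f ≠ C c * (X - C h) ^ f.natDegree + C g) → Sparse2 (Value f)) ∧
    -- pure polynomials of degree at least three with a centre which is not cyclic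
    (∀ (d : ℕ) (c h g : ℚ), 3 ≤ d → c ≠ 0 → ¬ Cyclic g →
      Sparse1 (Value (C c * (X - C h) ^ d + C g))) ∧
    -- pure polynomials with an arbitrary centre
    (∀ (d : ℕ) (c h g : ℚ), 2 ≤ d → c ≠ 0 →
      Sparse2 (fun y => Value (C c * (X - C h) ^ d + C g) y ∧
        ¬ (2 : ℤ) ^ d ∣ g.den * y - g.num) ∧
      (3 ≤ d → Sparse1 (fun y => Value (C c * (X - C h) ^ d + C g) y ∧
        ¬ (2 : ℤ) ^ d ∣ g.den * y - g.num))) ∧
    -- small multiples of powers
    (∀ d M : ℕ, 2 ≤ d → Sparse2 (NearPower d M) ∧ (3 ≤ d → Sparse1 (NearPower d M))) ∧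
    -- criteria of cyclicity
    (∀ (g : ℤ) (d : ℕ), 2 ≤ d →
      ((∃ n : ℕ, 0 < n ∧ T^[n] g = g) ↔ ¬ Sparse2 (Value (X ^ d + C (g : ℚ))))) ∧
    (∀ (g : ℚ) (d : ℕ), g ≠ 0 → 2 ≤ d →
      (Cyclic g ↔ ¬ Sparse2 (Value (C g - C g * X ^ d)))) ∧
    -- two odd squares can be near
    ¬ Sparse1 (fun y => y % 2 = 1 ∧ ∃ u : ℤ, y = u ^ 2) ∧
    -- the meaning of `Sparse2`
    ∀ P : ℤ → Prop, Sparse2 P →
      (∃ k : ℕ, ∀ (x : ℤ) (L : ℕ), (k : ℤ) ^ L < |x| →
        ((range (L + 1)).filter fun i => P (T^[i] x)).card ≤ 2) ∧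
      ∃ C : ℝ, 0 < C ∧
        (∀ (x : ℤ) (N K : ℕ), 1 ≤ K →
          (((range N).filter fun i => P (T^[i] x) ∧ Real.exp K ≤ |((T^[i] x : ℤ) : ℝ)|).card : ℝ) ≤
            C * ((N : ℝ) / K + 1)) ∧
        (∀ (x : ℤ) (N : ℕ), 2 ≤ N → Set.InjOn (fun i => T^[i] x) (Set.Iio N) →
          (((range N).filter fun i => P (T^[i] x)).card : ℝ) ≤ C * (N / Real.log N)) ∧
        (∀ Z : Finset ℤ, IsCycle Z → 2 ≤ Z.card →
          ((Z.filter fun y => P y).card : ℝ) ≤ C * (Z.card / Real.log Z.card)) := by
  refine ⟨fun f hd hf => Run7.h823.PV.all_poly hd hf, ?_, ?_, ?_, ?_, ?_,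
    Run7.h823.PV.not_sparse, ?_⟩
  · intro d c h g hd hc hg
    have e : Value (C c * (X - C h) ^ d + C g) = Run7.h823.PV.Val d c h g := by
      funext y
      exact propext (value_pure d c h g y)
    rw [e]
    exact Run7.h823.PV.val_three hd hc hg
  · intro d c h g hd hc
    have e : (fun y => Value (C c * (X - C h) ^ d + C g) y ∧
        ¬ (2 : ℤ) ^ d ∣ g.den * y - g.num) = Run7.h823.PV.PureVal d c h g := by
      funext y
      exact propext (and_congr_left fun _ => value_pure d c h g y)
    rw [e]
    refine ⟨?_, fun h3 => Run7.h823.PV.pure_three h3 hc⟩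
    rcases eq_or_lt_of_le hd with h2 | h2
    · subst h2
      exact Run7.h823.PV.pure_two hc
    · exact (Run7.h823.PV.pure_three h2 hc).two
  · intro d M hd
    refine ⟨?_, fun h3 => Run7.h823.PV.np_three h3 M⟩
    rcases eq_or_lt_of_le hd with h2 | h2
    · subst h2
      exact Run7.h823.PV.np_two M
    · exact (Run7.h823.PV.np_three h2 M).two
  · intro g d hd
    have e : Value (X ^ d + C (g : ℚ)) = fun y => ∃ u : ℤ, y = u ^ d + g := by
      funext y
      refine propext ?_
      unfold Value
      simp only [eval_add, eval_C, eval_pow, eval_X]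
      constructor
      · rintro ⟨u, hu⟩
        refine ⟨u, ?_⟩
        have : ((u ^ d + g : ℤ) : ℚ) = (y : ℚ) := by push_cast; exact hu
        exact (by exact_mod_cast this : u ^ d + g = y).symm
      · rintro ⟨u, rfl⟩
        exact ⟨u, by push_cast; rfl⟩
    rw [e]
    exact Run7.h823.PV.criterion_int g hd
  · intro g d hg hd
    have e : Value (C g - C g * X ^ d) = fun y : ℤ => ∃ u : ℤ, (y : ℚ) = g - g * u ^ d := by
      funext y
      refine propext ?_
      unfold Value
      simp only [eval_sub, eval_mul, eval_C, eval_pow, eval_X]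
      exact ⟨fun ⟨u, hu⟩ => ⟨u, hu.symm⟩, fun ⟨u, hu⟩ => ⟨u, hu.symm⟩⟩
    rw [e]
    exact Run7.h823.PV.criterion_rat hg hd
  · intro P hP
    exact ⟨Run7.h823.PV.window hP, Run7.h823.PV.rare hP⟩

end Pool.Agent.Results.MP_edb5be_nt.PolynomialValues
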