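import Mathlib
import Pool.Agent.Run7.h911.SU8

set_option autoImplicit false

/-!
# Elements of the cycles of the 3x+1 map which are sums of few units

Let `Γ` be a group generated by a finite set `S` of nonzero elements of a number field, `A` a finite set of
coefficients. In the trajectories of the 3x+1 map on the integers, hence in its cycles, the terms which are sums
of at most `h` products `a g` with `a ∈ A`, `g ∈ Γ` are rare if `Γ` contains no `2 ^ a 3 ^ b`
with `a ≠ 0`, and the odd ones among them are rare if `Γ` contains no `2 ^ a 3 ^ b` with `b ≠ 0`: of `N`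
different consecutive terms, for example of the elements of a cycle of `N` elements, at most
`C N ^ (1 - 1 / (h |S| + 1))` are of this kind, and in every trajectory at most `C (N / K + 1)` of the first `N`
terms are of this kind and at least `e ^ K` in absolute value. The constant does not depend on the trajectory.

Examples: sums of boundedly many integers composed of given primes different from two (all terms) or different
from three (odd terms), sums of boundedly many Fibonacci numbers.

Method. If `y` and `T ^ σ y` are of this kind and `σ` is small compared with `log |y|`, then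
`2 ^ σ T ^ σ y - 3 ^ o y` is a small integer; here `o` is the number of odd steps. By the theorem on moving
unit equations over number fields (starting files `Pool/Agent/NH29/GN`, from the subspace theorem) all but a
bounded number of the `2 ^ σ 3 ^ (-o)` are in finitely many classes modulo `Γ`. The terms of small
size are counted by a representation whose summands have small heights.
-/

namespace Pool.Agent.Results.MP_edb5be_nt.SumsOfUnits

open Finset Classical

/-- The 3x+1 map on the integers. -/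
def T (x : ℤ) : ℤ := if x % 2 = 0 then x / 2 else (3 * x + 1) / 2

/-- `Z` is a cycle of `T`. -/
def IsCycle (Z : Finset ℤ) : Prop :=
  ∃ (x : ℤ) (p : ℕ), 1 ≤ p ∧ T^[p] x = x ∧ Z = (Finset.range p).image fun i => T^[i] x

/-- The terms with the property `P` are rare in the trajectories and in the cycles of `T`:
(1) at most `C (N / K + 1)` of the first `N` terms have the property and absolute value at least `e ^ K`;
(2) if the first `N` terms are different at most `C N ^ (1 - 1 / (d + 1))` of them have the property;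
(3), (4) the same for the elements of a cycle, `N` replaced by their number. -/
def Rare (d : ℕ) (P : ℤ → Prop) : Prop :=
  ∃ C : ℝ, 0 < C ∧
    (∀ (x : ℤ) (N K : ℕ), 1 ≤ K →
      (((range N).filter fun i => P (T^[i] x) ∧ Real.exp K ≤ |((T^[i] x : ℤ) : ℝ)|).card : ℝ) ≤
        C * ((N : ℝ) / K + 1)) ∧
    (∀ (x : ℤ) (N : ℕ), 1 ≤ N → Set.InjOn (fun i => T^[i] x) (Set.Iio N) →
      (((range N).filter fun i => P (T^[i] x)).card : ℝ) ≤
        C * (N : ℝ) ^ (1 - 1 / ((d : ℝ) + 1))) ∧
    (∀ (Z : Finset ℤ) (K : ℕ), IsCycle Z → 1 ≤ K →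
      ((Z.filter fun y => P y ∧ Real.exp K ≤ |(y : ℝ)|).card : ℝ) ≤
        C * ((Z.card : ℝ) / K + 1)) ∧
    (∀ Z : Finset ℤ, IsCycle Z →
      ((Z.filter fun y => P y).card : ℝ) ≤ C * (Z.card : ℝ) ^ (1 - 1 / ((d : ℝ) + 1)))

/-- `x` is a sum of at most `h` terms `a g` with `a ∈ A`, `g ∈ Γ`. -/
def Sums {κ : Type} [Field κ] (A : Finset κ) (Γ : Subgroup κˣ) (h : ℕ) (x : ℤ) : Prop :=
  ∃ γ : Fin h → κ, (∀ i, γ i = 0 ∨ ∃ a ∈ A, ∃ g ∈ Γ, γ i = a * g) ∧ (x : κ) = ∑ i, γ i

/-- `D x` is a sum of `h` integers `m n` with `|m| ≤ H` and `n ≥ 1` composed of primes in `P`. -/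
def PrimeSums (P : Finset ℕ) (D h H : ℕ) (x : ℤ) : Prop :=
  ∃ (m : Fin h → ℤ) (n : Fin h → ℕ), (∀ i, |m i| ≤ H ∧ n i ≠ 0 ∧
    ∀ p, p.Prime → p ∣ n i → p ∈ P) ∧ (D : ℤ) * x = ∑ i, m i * n i

/-- `x` is a sum of `h` Fibonacci numbers with integral coefficients of absolute value at most `H`. -/
def FibSums (h H : ℕ) (x : ℤ) : Prop :=
  ∃ (m : Fin h → ℤ) (n : Fin h → ℕ), (∀ i, |m i| ≤ H) ∧ x = ∑ i, m i * (Nat.fib (n i) : ℤ)

theorem T_eq : T = Run7.h911.FD.TD 1 := by
  funext x
  unfold T Run7.h911.FD.TD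
  push_cast
  rfl

/-- a cycle is parametrized by its minimal period -/
theorem minimal {Z : Finset ℤ} (hZ : IsCycle Z) : ∃ (x : ℤ) (r : ℕ), 0 < r ∧
    Set.InjOn (fun i => T^[i] x) (Set.Iio r) ∧ Z.card = r ∧
    Z = (Finset.range r).image fun i => T^[i] x := by
  obtain ⟨x, p, hp, hper, rfl⟩ := hZ
  set r := Function.minimalPeriod T x with hr
  have hxp : Function.IsPeriodicPt T p x := hper
  have hr0 : 0 < r := hxp.minimalPeriod_pos hp
  have hinj : Set.InjOn (fun i => T^[i] x) (Set.Iio r) := Function.iterate_injOn_Iio_minimalPeriod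
  have hrp : r ≤ p := hxp.minimalPeriod_le hp
  have hZ : ((Finset.range p).image fun i => T^[i] x) = (Finset.range r).image fun i => T^[i] x := by
    ext y
    simp only [Finset.mem_image, Finset.mem_range]
    constructor
    · rintro ⟨i, _, rfl⟩
      exact ⟨i % r, Nat.mod_lt _ hr0, Function.iterate_mod_minimalPeriod_eq⟩
    · rintro ⟨i, hi, rfl⟩
      exact ⟨i, by omega, rfl⟩
  refine ⟨x, r, hr0, hinj, ?_, hZ⟩
  rw [hZ, Finset.card_image_of_injOn (by rw [Finset.coe_range]; exact hinj), Finset.card_range]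

/-- the elements of a cycle and the indices -/
theorem card_image_filter (x : ℤ) (r : ℕ) (P : ℤ → Prop) :
    (((Finset.range r).image fun i => T^[i] x).filter P).card ≤
      ((range r).filter fun i => P (T^[i] x)).card := by
  refine (Finset.card_le_card ?_).trans
    (Finset.card_image_le (s := (range r).filter fun i => P (T^[i] x)) (f := fun i => T^[i] x))
  intro y hy
  obtain ⟨h1, h2⟩ := Finset.mem_filter.1 hy
  obtain ⟨i, hi, rfl⟩ := Finset.mem_image.1 h1
  exact Finset.mem_image.2 ⟨i, Finset.mem_filter.2 ⟨hi, h2⟩, rfl⟩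

theorem rare_of {κ : Type} [Field κ] [NumberField κ] {A : Finset κ} {S : Finset κˣ} {h : ℕ} {C : ℝ}
    (hC : 0 < C) {P : ℤ → Prop}
    (hP : ∀ x, P x → Run7.h911.SU.Sums A (Subgroup.closure (S : Set κˣ)) h x)
    (hl : ∀ (x : ℤ) (N K : ℕ), 1 ≤ K → ∀ G : Finset ℕ, G ⊆ range N →
      (∀ i ∈ G, P ((Run7.h911.FD.TD 1)^[i] x) ∧
        Real.exp K ≤ |(((Run7.h911.FD.TD 1)^[i] x : ℤ) : ℝ)|) →
      (G.card : ℝ) ≤ C * ((N : ℝ) / K + 1)) : Rare (S.card * h) P := by
  obtain ⟨C', hC', ht⟩ := Run7.h911.SU.total hC hP hl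
  simp only [← T_eq] at hl ht
  have g1 : ∀ (x : ℤ) (N K : ℕ), 1 ≤ K →
      (((range N).filter fun i => P (T^[i] x) ∧ Real.exp K ≤ |((T^[i] x : ℤ) : ℝ)|).card : ℝ) ≤
        (C + C') * ((N : ℝ) / K + 1) := by
    intro x N K hK
    refine (hl x N K hK _ (Finset.filter_subset _ _) fun i hi => (Finset.mem_filter.1 hi).2).trans ?_
    have : (0 : ℝ) ≤ (N : ℝ) / K + 1 := by positivity
    nlinarith
  have g2 : ∀ (x : ℤ) (N : ℕ), 1 ≤ N → Set.InjOn (fun i => T^[i] x) (Set.Iio N) →
      (((range N).filter fun i => P (T^[i] x)).card : ℝ) ≤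
        (C + C') * (N : ℝ) ^ (1 - 1 / (((S.card * h : ℕ) : ℝ) + 1)) := by
    intro x N hN hinj
    refine (ht x N hN hinj _ (Finset.filter_subset _ _) fun i hi =>
      (Finset.mem_filter.1 hi).2).trans ?_
    have : (0 : ℝ) ≤ (N : ℝ) ^ (1 - 1 / (((S.card * h : ℕ) : ℝ) + 1)) := by positivity
    nlinarith
  refine ⟨C + C', by positivity, g1, g2, fun Z K hZ hK => ?_, fun Z hZ => ?_⟩
  · obtain ⟨x, r, hr0, hinj, hcard, hZ'⟩ := minimal hZ
    rw [hcard, hZ']
    refine le_trans ?_ (g1 x r K hK)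
    exact_mod_cast card_image_filter x r (fun y => P y ∧ Real.exp K ≤ |(y : ℝ)|)
  · obtain ⟨x, r, hr0, hinj, hcard, hZ'⟩ := minimal hZ
    rw [hcard, hZ']
    refine le_trans ?_ (g2 x r hr0 hinj)
    exact_mod_cast card_image_filter x r P

theorem Rare.mono {d d' : ℕ} (hd : d ≤ d') {P P' : ℤ → Prop} (hP : ∀ x, P' x → P x)
    (h : Rare d P) : Rare d' P' := by
  obtain ⟨C, hC, h1, h2, h3, h4⟩ := h
  have hpow : ∀ N : ℕ, 1 ≤ N → (N : ℝ) ^ (1 - 1 / ((d : ℝ) + 1)) ≤
      (N : ℝ) ^ (1 - 1 / ((d' : ℝ) + 1)) := by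
    intro N hN
    apply Real.rpow_le_rpow_of_exponent_le (by exact_mod_cast hN)
    have : (d : ℝ) ≤ d' := by exact_mod_cast hd
    gcongr
  refine ⟨C, hC, fun x N K hK => le_trans ?_ (h1 x N K hK), fun x N hN hinj => ?_,
    fun Z K hZ hK => le_trans ?_ (h3 Z K hZ hK), fun Z hZ => ?_⟩
  · have := Finset.card_le_card (Finset.monotone_filter_right (range N)
      (p := fun i => P' (T^[i] x) ∧ Real.exp K ≤ |((T^[i] x : ℤ) : ℝ)|)
      (q := fun i => P (T^[i] x) ∧ Real.exp K ≤ |((T^[i] x : ℤ) : ℝ)|)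
      (fun i _ hi => ⟨hP _ hi.1, hi.2⟩))
    exact_mod_cast this
  · have := Finset.card_le_card (Finset.monotone_filter_right (range N)
      (p := fun i => P' (T^[i] x)) (q := fun i => P (T^[i] x)) (fun i _ hi => hP _ hi))
    have h5 : (((range N).filter fun i => P' (T^[i] x)).card : ℝ) ≤
        ((range N).filter fun i => P (T^[i] x)).card := by exact_mod_cast this
    exact h5.trans ((h2 x N hN hinj).trans (mul_le_mul_of_nonneg_left (hpow N hN) hC.le))
  · have := Finset.card_le_card (Finset.monotone_filter_right Z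
      (p := fun y => P' y ∧ Real.exp K ≤ |(y : ℝ)|) (q := fun y => P y ∧ Real.exp K ≤ |(y : ℝ)|)
      (fun i _ hi => ⟨hP _ hi.1, hi.2⟩))
    exact_mod_cast this
  · have := Finset.card_le_card (Finset.monotone_filter_right Z
      (p := fun y => P' y) (q := fun y => P y) (fun i _ hi => hP _ hi))
    have h5 : ((Z.filter fun y => P' y).card : ℝ) ≤ (Z.filter fun y => P y).card := by
      exact_mod_cast this
    obtain ⟨x, r, hr0, -, hcard, -⟩ := minimal hZ
    exact h5.trans ((h4 Z hZ).trans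
      (mul_le_mul_of_nonneg_left (hpow Z.card (by omega)) hC.le))

theorem main_all {κ : Type} [Field κ] [NumberField κ] (A : Finset κ) (S : Finset κˣ) (h : ℕ)
    (hc : ∀ g ∈ Subgroup.closure (S : Set κˣ), ∀ a b : ℤ, (g : κ) = 2 ^ a * 3 ^ b → a = 0) :
    Rare (S.card * h) (Sums A (Subgroup.closure (S : Set κˣ)) h) := by
  obtain ⟨C, hC, hl⟩ := Run7.h911.SU.large_all A (Γ := Subgroup.closure (S : Set κˣ)) ⟨S, rfl⟩ h hc
  exact rare_of hC (fun x hx => hx) hl

theorem main_odd {κ : Type} [Field κ] [NumberField κ] (A : Finset κ) (S : Finset κˣ) (h : ℕ)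
    (hc : ∀ g ∈ Subgroup.closure (S : Set κˣ), ∀ a b : ℤ, (g : κ) = 2 ^ a * 3 ^ b → b = 0) :
    Rare (S.card * h) (fun x => x % 2 = 1 ∧ Sums A (Subgroup.closure (S : Set κˣ)) h x) := by
  obtain ⟨C, hC, hl⟩ := Run7.h911.SU.large_odd A (Γ := Subgroup.closure (S : Set κˣ)) ⟨S, rfl⟩ h hc
  exact rare_of hC (fun x hx => hx.2) hl

/-- **Sums of few units are rare in the trajectories and in the cycles of the 3x+1 map.**

(1) Let `κ` be a number field, `A` a finite subset and `S` a finite subset of its units which generates a group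
containing no `2 ^ a 3 ^ b` with `a ≠ 0`. Then the integers which are sums of at most `h` terms `a g`,
`a ∈ A`, `g` in the group, are rare, with `d = |S| h`.
(2) If the group contains no `2 ^ a 3 ^ b` with `b ≠ 0` the odd integers of this kind are rare.
(3) Let `P` be a finite set of primes and `D ≥ 1`. If `2 ∉ P` the integers `x` such that `D x` is a sum of `h`
integers `m n` with `|m| ≤ H` and `n` composed of primes in `P` are rare, with `d = |P| h`. If `3 ∉ P` the
odd ones among them are rare.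
(4) The integers which are sums of `h` Fibonacci numbers with coefficients of absolute value at most `H` are
rare, with `d = 2 h`. -/
theorem result :
    (∀ (κ : Type) [Field κ] [NumberField κ] (A : Finset κ) (S : Finset κˣ) (h : ℕ),
      (∀ g ∈ Subgroup.closure (S : Set κˣ), ∀ a b : ℤ, (g : κ) = 2 ^ a * 3 ^ b → a = 0) →
      Rare (S.card * h) (Sums A (Subgroup.closure (S : Set κˣ)) h)) ∧
    (∀ (κ : Type) [Field κ] [NumberField κ] (A : Finset κ) (S : Finset κˣ) (h : ℕ),
      (∀ g ∈ Subgroup.closure (S : Set κˣ), ∀ a b : ℤ, (g : κ) = 2 ^ a * 3 ^ b → b = 0) →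
      Rare (S.card * h) (fun x => x % 2 = 1 ∧ Sums A (Subgroup.closure (S : Set κˣ)) h x)) ∧
    (∀ P : Finset ℕ, (∀ p ∈ P, p.Prime) → ∀ D h H : ℕ, 1 ≤ D →
      (2 ∉ P → Rare (P.card * h) (PrimeSums P D h H)) ∧
      (3 ∉ P → Rare (P.card * h) (fun x => x % 2 = 1 ∧ PrimeSums P D h H x))) ∧
    (∀ h H : ℕ, Rare (2 * h) (FibSums h H)) := by
  refine ⟨fun κ _ _ A S h hc => main_all A S h hc, fun κ _ _ A S h hc => main_odd A S h hc,
    fun P hP D h H hD => ⟨fun h2 => ?_, fun h3 => ?_⟩, fun h H => ?_⟩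
  · exact (main_all (Run7.h911.SU.coef D H) (Run7.h911.SU.gens P) h
      (Run7.h911.SU.cond2_gens hP h2)).mono (Nat.mul_le_mul_right _ (Run7.h911.SU.gens_card P))
      fun x hx => Run7.h911.SU.sums_rat (by omega) hx
  · exact (main_odd (Run7.h911.SU.coef D H) (Run7.h911.SU.gens P) h
      (Run7.h911.SU.cond3_gens hP h3)).mono (Nat.mul_le_mul_right _ (Run7.h911.SU.gens_card P))
      fun x hx => ⟨hx.1, Run7.h911.SU.sums_rat (by omega) hx.2⟩
  · refine (main_all (Run7.h911.SU.coef5 H) {Run7.h911.SU.ph} (h + h)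
      (fun g hg a b hab => (Run7.h911.SU.ph_cond hg hab).1)).mono ?_
      fun x hx => Run7.h911.SU.sums_fib hx
    rw [Finset.card_singleton]
    omega

end Pool.Agent.Results.MP_edb5be_nt.SumsOfUnits
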