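import Pool.Agent.Run7.h430.TW.Coll
import Pool.Agent.N760.IT.C
import Pool.Agent.N905.EX.Three
import Pool.Agent.N905.EX.Loc

/-!
# The cycles of the 3x+1 map and the members of almost all orbits of Euler's function

Let `φ_k` be the `k`-th iterate of Euler's function, `φ_0(m) = m`. Let `f` be a positive multiplicative function of at most
polynomial growth such that `f p ≤ M p` for the large primes `p`, with different values at different large primes; for example
the identity, Euler's function or the sum of the divisors. Let `G` have steps bounded below by a positive constant and growth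
at most `v^d`; for example `G v = α v^d` with `α > 0`, `d ≥ 1`. Let `κ ≥ 0`.

* If `d (0.94 + 1.08 ρ) + κ < 1`, there is `K(m)` tending to infinity such that for almost all `m`, for all `k ≤ K(m)`, with
  `v = f(φ_k(m))`, NO integer `x` (of either sign) with `|x|` within `v^κ` of `G v` lies on a cycle of the 3x+1 map, or enters
  a cycle during the first `ρ log |x|` steps.
* If `0 < δ ≤ 1` and `d (1 - 0.06 δ) + κ < 1`, there is `K(m)` tending to infinity such that for almost all `m`, for all
  `k ≤ K(m)`, the trajectories of ALL these integers `x` reach terms of absolute value at most `|x|^δ`.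

The iterates of Euler's function are not multiplicative, their values form a thin set and are taken with very large
multiplicities, and so this does not follow from the counts of the integers on cycles and of the high trajectories. The
starting theorem `TotientOrbits` of the problem `MP_dee342_nt` treats the number of the elements and the largest element of a
cycle; here all the elements of the cycles, the integers entering them, and the minima of the trajectories are treated.

Proof. The elements of cycles are sparse (`N905/EX/Loc`: at most `C X^0.94` up to `X`), and so are the integers with high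
trajectories (`N905/EX/Three`); `Run7/h430/TW/Coll` counts the preimages of the elements of cycles and the integers whose
trajectory stays above `|x|^δ`. The tool `N760/IT` (starting files) carries these counts over to the orbits.
-/

set_option autoImplicit false

namespace Pool.Agent.Results.MP_edb5be_nt.TotientOrbits

open Finset Filter Topology

/-- The 3x+1 map on the integers. -/
def T (x : ℤ) : ℤ := if x % 2 = 0 then x / 2 else (3 * x + 1) / 2

/-- `x` lies on a cycle of `T`. -/
def OnCycle (x : ℤ) : Prop := ∃ p : ℕ, 1 ≤ p ∧ T^[p] x = x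

/-- A positive multiplicative function of at most polynomial growth, at most `M p` at the large primes `p` and with different
values at different large primes. -/
structure Moderate (f : ℕ → ℕ) : Prop where
  mul : ∀ m n : ℕ, Nat.Coprime m n → f (m * n) = f m * f n
  pos : ∀ m : ℕ, 1 ≤ m → 1 ≤ f m
  growth : ∃ C D : ℕ, ∀ m : ℕ, 1 ≤ m → f m ≤ C * m ^ D
  prime : ∃ P M : ℕ, ∀ p : ℕ, P ≤ p → p.Prime → f p ≤ M * p ∧ ∀ q : ℕ, P ≤ q → q.Prime → f q = f p → q = p

/-- The steps of `G` are at least a positive constant, and `G` grows at most like `v ^ d`, `d ≥ 1`. -/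
structure Expanding (G : ℕ → ℝ) (d : ℝ) : Prop where
  one_le : 1 ≤ d
  step : ∃ a : ℝ, 0 < a ∧ ∀ v : ℕ, 1 ≤ v → a ≤ G (v + 1) - G v
  growth : ∃ C : ℝ, ∀ v : ℕ, 1 ≤ v → G v ≤ C * (v : ℝ) ^ d

open Classical in
/-- The proportion of the positive integers `m ≤ N` without the property `P` tends to `0`. -/
def AlmostAll (P : ℕ → Prop) : Prop :=
  Tendsto (fun N : ℕ => (((Icc 1 N).filter (fun m => ¬ P m)).card : ℝ) / N) atTop (𝓝 0)

/-- the value of `f` at the `k`-th iterate of Euler's function -/
def orb (f : ℕ → ℕ) (k m : ℕ) : ℕ := f (Nat.totient^[k] m)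

theorem lm_of {f : ℕ → ℕ} (hf : Moderate f) : Pool.Agent.N733.TG.LM f := ⟨hf.mul, hf.pos, hf.growth, hf.prime⟩

theorem of_lm {f : ℕ → ℕ} (hf : Pool.Agent.N733.TG.LM f) : Moderate f := ⟨hf.mul, hf.pos, hf.growth, hf.prime⟩

theorem tail : Run7.h430.TW.Coll.Tail := by
  obtain ⟨A, hA, h⟩ := Pool.Agent.N905.EX.three_ex (k := 1) odd_one
  exact ⟨A, hA, h⟩

theorem cyc : Run7.h430.TW.Coll.Cyc := by
  obtain ⟨A, hA, h⟩ := Pool.Agent.N905.EX.sparse_ex (η := 94 / 100) Pool.Agent.N905.EX.eta0_lt (by norm_num)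
  refine ⟨A, hA, ?_⟩
  intro R hR F hF
  have h1 := h 1 odd_one _ (Pool.Agent.H319R2.G.tame_periodic _) 0 R hR F (by
    intro x hx
    obtain ⟨⟨p, hp, hpx⟩, h⟩ := hF x hx
    refine ⟨⟨p, hp, hpx⟩, ?_⟩
    rw [sub_zero]
    exact h)
  rw [Int.cast_one, abs_one, Real.one_rpow, mul_one] at h1
  exact h1

/-- **The 3x+1 map near the orbits of Euler's function.** Let `f` be multiplicative and positive, of at most polynomial growth,
with `f p ≤ M p` at the large primes, and injective there. Let `G` have steps `≥ const > 0` and growth at most `v ^ d`, and let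
`κ ≥ 0`. (1) If `ρ ≥ 0` and `d (0.94 + 1.08 ρ) + κ < 1`, then there is `K(m)` tending to infinity such that for almost all
`m`, for all `k ≤ K(m)`, with `v = f(φ_k(m))`, for all integers `x` with `||x| - G v| ≤ v ^ κ` none of the terms `T^i x`,
`i ≤ ρ log |x|` (in particular `x`), lies on a cycle of `T`. (2) If `0 < δ ≤ 1` and `d (1 - 0.06 δ) + κ < 1`, then there is
`K(m)` tending to infinity such that for almost all `m`, for all `k ≤ K(m)`, with `v = f(φ_k(m))`, the trajectories of all
integers `x` with `||x| - G v| ≤ v ^ κ` have a term of absolute value at most `|x| ^ δ`. (3) The identity, Euler's function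
and the sum of the divisors are examples of `f`, and `α v ^ d` with `α > 0`, `d ≥ 1` is an example of `G`. -/
theorem result :
    (∀ f : ℕ → ℕ, Moderate f → ∀ (G : ℕ → ℝ) (d : ℝ), Expanding G d → ∀ κ : ℝ, 0 ≤ κ →
      (∀ ρ : ℝ, 0 ≤ ρ → d * (94 / 100 + 108 / 100 * ρ) + κ < 1 → ∃ K : ℕ → ℕ, Tendsto K atTop atTop ∧
        AlmostAll (fun m => ∀ k ≤ K m, ∀ x : ℤ, |(|(x : ℝ)|) - G (orb f k m)| ≤ (orb f k m : ℝ) ^ κ →
          ∀ i : ℕ, (i : ℝ) ≤ ρ * Real.log |(x : ℝ)| → ¬ OnCycle (T^[i] x))) ∧
      (∀ δ : ℝ, 0 < δ → δ ≤ 1 → d * (1 - 6 / 100 * δ) + κ < 1 → ∃ K : ℕ → ℕ, Tendsto K atTop atTop ∧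
        AlmostAll (fun m => ∀ k ≤ K m, ∀ x : ℤ, |(|(x : ℝ)|) - G (orb f k m)| ≤ (orb f k m : ℝ) ^ κ →
          ∃ i : ℕ, |((T^[i] x : ℤ) : ℝ)| ≤ |(x : ℝ)| ^ δ))) ∧
    (Moderate (fun m => m) ∧ Moderate Nat.totient ∧ Moderate (fun m => ∑ d ∈ m.divisors, d)) ∧
    ∀ α d : ℝ, 0 < α → 1 ≤ d → Expanding (fun v => α * (v : ℝ) ^ d) d := by
  refine ⟨fun f hf G d hG κ hκ => ⟨fun ρ hρ h1 => ?_, fun δ hδ hδ1 h1 => ?_⟩,
    ⟨of_lm Pool.Agent.N760.IT.lm_id, of_lm Pool.Agent.N733.TG.lm_totient, of_lm Pool.Agent.N733.TG.lm_sigma⟩,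
    fun α d hα hd => ?_⟩
  · obtain ⟨K, hK, hK2⟩ := Pool.Agent.N760.IT.orbit_windows
      {x : ℤ | ∃ i : ℕ, (i : ℝ) ≤ ρ * Real.log |(x : ℝ)| ∧ OnCycle (T^[i] x)} (fun x : ℤ => |(x : ℝ)|) (lm_of hf)
      (G := G) (d := d) ⟨hG.one_le, hG.step, hG.growth⟩ (s := 94 / 100 + 108 / 100 * ρ) (κ := κ) (by positivity) hκ h1
      (fun ε hε => Run7.h430.TW.Coll.count_cyc cyc ρ hρ ε hε)
    refine ⟨K, hK, Pool.Agent.N826.IT.Orb.almostAll_mono hK2 (fun m hm k hk x hx i hi hc => ?_)⟩
    exact hm k hk x ⟨i, hi, hc⟩ hx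
  · obtain ⟨K, hK, hK2⟩ := Pool.Agent.N760.IT.orbit_windows
      {x : ℤ | ∀ i : ℕ, |(x : ℝ)| ^ δ < |((T^[i] x : ℤ) : ℝ)|} (fun x : ℤ => |(x : ℝ)|) (lm_of hf)
      (G := G) (d := d) ⟨hG.one_le, hG.step, hG.growth⟩ (s := 1 - 6 / 100 * δ) (κ := κ) (by linarith) hκ h1
      (fun ε hε => Run7.h430.TW.Coll.count_tail tail δ hδ hδ1 ε hε)
    refine ⟨K, hK, Pool.Agent.N826.IT.Orb.almostAll_mono hK2 (fun m hm k hk x hx => ?_)⟩
    by_contra hcon
    push Not at hcon
    exact hm k hk x hcon hx
  · obtain ⟨h1, h2, h3⟩ := Pool.Agent.N733.TG.expanding_pow hα hd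
    exact ⟨h1, h2, h3⟩

end Pool.Agent.Results.MP_edb5be_nt.TotientOrbits
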